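import Mathlib
import Pool.Agent.Q93.MC.Final

/-!
Domains of complete Pick pairs with a normalized diagonal first kernel.

Let `(k, ℓ, Ω)` be a complete Pick pair of holomorphic kernels on a domain `0 ∈ Ω ⊆ ℂ^g`, `g ≥ 1`,
with `k` normalized diagonal and `ℓ` not identically zero, and let `ϑ` be the master certificate of
`k`. Then `Ω` does not contain the closure of `Ω¹_ϑ`. Moreover, if the closed polydisc
`{z : |z_j| ≤ |x_j| for all j}` is contained in `Ω`, then `∑_{a ≠ 0} ϑ_a |x|^{2a} ≤ 1`.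

Idea of the proof. Let `c ∈ Ω` with `ℓ(c,c) ≠ 0`. The complete Pick property on the set
`N = {ℓ(z,z) ≠ 0}` gives a Shimorin certificate `p` at `c`: a kernel on `N` with `p(z,z) ≤ 1`,
`p(c,c) = 0`, `p k ≥ k - k(·,c) k(c,·)/k(c,c)`, and `ℓ(z,c) conj ℓ(w,c) p(z,w) ≤ ℓ(c,c) ℓ(z,w)`. The
last inequality shows that the feature map of `p` is holomorphic where `ℓ(z,c) ≠ 0`, and since it is
bounded its singularities on lines through `c` are removable: on the part of `Ω` which is star-shaped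
about `c` it is given by a power series with Hilbert space coefficients `h_a`, bounded by one. Let `c`
tend to `0`; a limit `G_ab` of `⟨h_a, h_b⟩` satisfies `G_00 = 0`, `∑ G_aa |x|^{2a} ≤ 1` on polydiscs in
`Ω` (Parseval), and `G k - k + 1 ≥ 0` near `0`, whence, taking diagonal coefficients,
`k_b ≤ ∑_{a + d = b} G_aa k_d` for `b ≠ 0`. The greedy certificate `ϑ` then also satisfies
`∑ ϑ_a |x|^{2a} ≤ 1`. If the closure of `Ω¹_ϑ` were in `Ω`, a slightly larger polydisc around the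
last disc `{ζ e_1 : |ζ| ≤ t}` in this closure would be in `Ω`, and a larger multiple of `e_1` would be
in `Ω¹_ϑ`.
-/

set_option autoImplicit false

open scoped ComplexConjugate ComplexOrder ENNReal

noncomputable section

namespace Pool.Agent.Results.MP_a1177b_an.DiagonalPickDomain

/-- `f` is a kernel on the set `Ω`: all matrices `[f(z_i, z_j)]` with `z_1, …, z_n ∈ Ω` are positive
semidefinite (Hermitian, with nonnegative quadratic form). -/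
def IsKernelOn {V : Type} (Ω : Set V) (f : V → V → ℂ) : Prop :=
  ∀ (n : ℕ) (z : Fin n → V), (∀ i, z i ∈ Ω) → (Matrix.of fun i j => f (z i) (z j)).PosSemidef

/-- A holomorphic kernel on `Ω ⊆ ℂ^g`: a kernel which is continuous on `Ω × Ω`, holomorphic in the
first variable and antiholomorphic in the second one. -/
structure IsHolomorphicKernel {g : ℕ} (Ω : Set (Fin g → ℂ))
    (f : (Fin g → ℂ) → (Fin g → ℂ) → ℂ) : Prop where
  kernel : IsKernelOn Ω f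
  cont : ContinuousOn (fun q : (Fin g → ℂ) × (Fin g → ℂ) => f q.1 q.2) (Ω ×ˢ Ω)
  holomorphic : ∀ w ∈ Ω, DifferentiableOn ℂ (fun z => f z w) Ω
  antiholomorphic : ∀ z ∈ Ω, DifferentiableOn ℂ (fun w => conj (f z w)) Ω

/-- `k` is normalized diagonal with coefficients `κ_a`: `κ_a > 0`, `κ_0 = 1` and
`k(z,w) = ∑_a κ_a z^a conj(w)^a` for all `z`, `w` near the origin. -/
structure IsNormalizedDiagonal {g : ℕ} (k : (Fin g → ℂ) → (Fin g → ℂ) → ℂ)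
    (κ : (Fin g →₀ ℕ) → ℝ) : Prop where
  pos : ∀ a, 0 < κ a
  zero : κ 0 = 1
  expansion : ∃ ε : ℝ, 0 < ε ∧ ∀ z w : Fin g → ℂ, ‖z‖ < ε → ‖w‖ < ε →
    HasSum (fun a : Fin g →₀ ℕ => (κ a : ℂ) * (∏ j, z j ^ a j) * ∏ j, conj (w j) ^ a j) (k z w)

/-- The block matrix `[ℓ(x,y) I_J - k(x,y) W(x) W(y)^*]`, `x, y ∈ F`, is positive semidefinite; it is
written as a scalar matrix indexed by pairs of a point of `F` and a coordinate. -/
def BlockPositive {V : Type} (k ℓ : V → V → ℂ) {J : ℕ} (F : Finset V)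
    (W : V → Matrix (Fin J) (Fin J) ℂ) : Prop :=
  (Matrix.of fun a b : F × Fin J =>
    (ℓ a.1 b.1 • (1 : Matrix (Fin J) (Fin J) ℂ) -
      k a.1 b.1 • (W a.1 * (W b.1).conjTranspose)) a.2 b.2).PosSemidef

/-- `(k, ℓ, X)` is a complete Pick pair: for all `J ≥ 1`, all finite `F ⊆ X` and all data `W` on `F`
with values in `M_J(ℂ)` such that `[ℓ(x,y) I_J - k(x,y) W(x) W(y)^*]` is positive semidefinite on `F`,
there is `Φ` with `Φ = W` on `F` for which the same is true on all finite subsets of `X`. (Only the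
values of `W` on `F` and of `Φ` on `X` matter.) -/
def IsCompletePickPair {V : Type} (k ℓ : V → V → ℂ) (X : Set V) : Prop :=
  ∀ J : ℕ, 1 ≤ J → ∀ F : Finset V, (F : Set V) ⊆ X → ∀ W : V → Matrix (Fin J) (Fin J) ℂ,
    BlockPositive k ℓ F W → ∃ Φ : V → Matrix (Fin J) (Fin J) ℂ, (∀ x ∈ F, Φ x = W x) ∧
      ∀ G : Finset V, (G : Set V) ⊆ X → BlockPositive k ℓ G Φ

/-- `ϑ` is the master certificate of the coefficients `κ`: `ϑ_0 = 0`, `ϑ_{e_j} = κ_{e_j}` and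
`ϑ_b = max{0, κ_b - ∑_{w + u = b, w, u ≠ 0} ϑ_w κ_u}` for `|b| ≥ 2`. -/
def IsMasterCertificate {g : ℕ} (κ ϑ : (Fin g →₀ ℕ) → ℝ) : Prop :=
  ϑ 0 = 0 ∧ (∀ j, ϑ (Finsupp.single j 1) = κ (Finsupp.single j 1)) ∧
    ∀ b : Fin g →₀ ℕ, 2 ≤ ∑ j, b j →
      ϑ b = max 0 (κ b -
        ∑ p ∈ (Finset.HasAntidiagonal.antidiagonal b).filter (fun p => p.1 ≠ 0 ∧ p.2 ≠ 0), ϑ p.1 * κ p.2)

/-- The domain `Ω_ϑ`: the interior of `{x : sup_a ϑ_a |x|^{2a} < ∞}`. -/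
def Omega {g : ℕ} (ϑ : (Fin g →₀ ℕ) → ℝ) : Set (Fin g → ℂ) :=
  interior {x | BddAbove (Set.range fun a : Fin g →₀ ℕ => ϑ a * ∏ j, ‖x j‖ ^ (2 * a j))}

/-- The sum `∑_{a ≠ 0} ϑ_a |x|^{2a} ∈ [0, ∞]`. -/
def thetaSum {g : ℕ} (ϑ : (Fin g →₀ ℕ) → ℝ) (x : Fin g → ℂ) : ℝ≥0∞ :=
  ∑' a : {a : Fin g →₀ ℕ // a ≠ 0}, ENNReal.ofReal (ϑ a * ∏ j, ‖x j‖ ^ (2 * (a : Fin g →₀ ℕ) j))

/-- The set `Ω¹_ϑ = {x ∈ Ω_ϑ : ∑_{a ≠ 0} ϑ_a |x|^{2a} < 1}`. -/
def OmegaOne {g : ℕ} (ϑ : (Fin g →₀ ℕ) → ℝ) : Set (Fin g → ℂ) :=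
  {x | x ∈ Omega ϑ ∧ thetaSum ϑ x < 1}

open Pool.Agent.Q93.MC

lemma mon_sq_eq {g : ℕ} (x : Fin g → ℂ) (a : Fin g →₀ ℕ) :
    mon (sq x) a = ∏ j, ‖x j‖ ^ (2 * a j) := by
  simp only [mon, Q93.MC.sq]
  exact Finset.prod_congr rfl fun j _ => by rw [← pow_mul]

lemma omegaOne_eq {g : ℕ} (ϑ : (Fin g →₀ ℕ) → ℝ) : OmegaOne ϑ = Om1 ϑ := by
  have h1 : Omega ϑ = interior (Bd ϑ) := by
    simp only [Omega, Bd, mon_sq_eq]
  have h2 : ∀ x, thetaSum ϑ x = tsm ϑ x := fun x => by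
    simp only [thetaSum, tsm, mon_sq_eq]
  ext x
  change x ∈ Omega ϑ ∧ thetaSum ϑ x < 1 ↔ x ∈ interior (Bd ϑ) ∧ tsm ϑ x < 1
  rw [h1, h2]

/-- If `(k, ℓ, Ω)` is a complete Pick pair of holomorphic kernels on a domain `0 ∈ Ω ⊆ ℂ^g`, `g ≥ 1`,
`k` is normalized diagonal with master certificate `ϑ`, and `ℓ` is not identically zero, then
`∑_{a ≠ 0} ϑ_a |x|^{2a} ≤ 1` whenever the closed polydisc with polyradius `|x|` is contained in `Ω`,
and the closure of `Ω¹_ϑ` is not contained in `Ω`. -/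
theorem result {g : ℕ} (hg : 1 ≤ g) (Ω : Set (Fin g → ℂ)) (hΩ : IsOpen Ω) (hconn : IsConnected Ω)
    (h0 : (0 : Fin g → ℂ) ∈ Ω) (k ℓ : (Fin g → ℂ) → (Fin g → ℂ) → ℂ)
    (hk : IsHolomorphicKernel Ω k) (hℓ : IsHolomorphicKernel Ω ℓ)
    (hℓ0 : ∃ z ∈ Ω, ∃ w ∈ Ω, ℓ z w ≠ 0) (κ : (Fin g →₀ ℕ) → ℝ)
    (hκ : IsNormalizedDiagonal k κ) (hcp : IsCompletePickPair k ℓ Ω)
    (ϑ : (Fin g →₀ ℕ) → ℝ) (hϑ : IsMasterCertificate κ ϑ) :
    (∀ x : Fin g → ℂ, {z : Fin g → ℂ | ∀ j, ‖z j‖ ≤ ‖x j‖} ⊆ Ω → thetaSum ϑ x ≤ 1) ∧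
      ¬ closure (OmegaOne ϑ) ⊆ Ω := by
  classical
  have hm : IsMaster κ ϑ := hϑ
  obtain ⟨ε, hε, hexp⟩ := hκ.expansion
  have hkn : ∀ a, 0 ≤ κ a := fun a => (hκ.pos a).le
  -- a point where `ℓ` does not vanish
  obtain ⟨z₀, hz₀, w₀, hw₀, hzw⟩ := hℓ0
  have hzz : ℓ z₀ z₀ ≠ 0 := by
    intro h
    have h1 := IsKer.norm_sq_le (f := ℓ) hℓ.kernel hz₀ hw₀
    rw [h, Complex.zero_re, zero_mul] at h1
    exact hzw (norm_eq_zero.1 (pow_eq_zero_iff two_ne_zero |>.1 (le_antisymm h1 (by positivity))))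
  have hka : ∀ z w : Fin g → ℂ, (∀ j, ‖z j‖ < ε) → (∀ j, ‖w j‖ < ε) →
      HasSum (fun a => (κ a : ℂ) * mon z a * conj (mon w a)) (k z w) := by
    intro z w hz hw
    have h1 := hexp z w ((pi_norm_lt_iff hε).2 hz) ((pi_norm_lt_iff hε).2 hw)
    convert h1 using 2 with a
    rw [← mon_conj]
    rfl
  have hKT : ∀ x : Fin g → ℂ, Pd x ⊆ Ω → ∀ m, ∑ a ∈ Finset.Iic m, ϑ a * mon (sq x) a ≤ 1 :=
    fun x hx m => sum_le_one hΩ hconn.isPreconnected hk.kernel hℓ.kernel hk.cont hℓ.cont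
      hℓ.holomorphic hcp h0 hz₀ hzz hε hκ.zero hkn hka hm hx m
  obtain ⟨hθ, -, -⟩ := hm.props hκ.zero hkn
  refine ⟨fun x hx => ?_, ?_⟩
  · have h1 : ∀ x, thetaSum ϑ x = tsm ϑ x := fun x => by
      simp only [thetaSum, tsm, mon_sq_eq]
    rw [h1, tsm, ENNReal.tsum_eq_iSup_sum]
    refine iSup_le fun F => ?_
    rw [← ENNReal.ofReal_sum_of_nonneg (f := fun a : {a : Fin g →₀ ℕ // a ≠ 0} =>
      ϑ a * mon (sq x) a) fun a _ =>
      mul_nonneg (hθ a) (mon_nonneg (sq_nonneg' x) a.1), ← ENNReal.ofReal_one]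
    refine ENNReal.ofReal_le_ofReal ?_
    let F' : Finset (Fin g →₀ ℕ) := F.map (Function.Embedding.subtype _)
    refine le_trans ?_ (hKT x hx (F'.sup id))
    have h1 : ∑ a ∈ F, ϑ a * mon (sq x) a = ∑ a ∈ F', ϑ a * mon (sq x) a := by
      rw [Finset.sum_map]
      rfl
    rw [h1]
    refine Finset.sum_le_sum_of_subset_of_nonneg (fun a ha => ?_)
      fun a _ _ => mul_nonneg (hθ a) (mon_nonneg (sq_nonneg' x) a)
    rw [Finset.mem_Iic]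
    exact Finset.le_sup (f := id) ha
  · rw [omegaOne_eq]
    let j₀ : Fin g := ⟨0, hg⟩
    refine not_subset hθ j₀ ?_ hΩ h0 hKT
    rw [hϑ.2.1 j₀]
    exact hκ.pos _

end Pool.Agent.Results.MP_a1177b_an.DiagonalPickDomain
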